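import Mathlib
import Pool.Agent.MP_ef8d06_pr.Defs
import Pool.Agent.SparseOrd.Final

set_option autoImplicit false

open Filter Topology Pool.Agent.MP_ef8d06_pr

namespace Pool.Agent.Results.MP_ef8d06_pr.TwoSided

/-- First part (Q1): there are positive functions `β` and `γ` tending to one such that, for every
sequence `1 ≤ c n ≤ log n` and `p n = c n / n`, with probability tending to one the dimension of the
random graph order lies between `exp (β (c n) * c n)` and `exp (γ (c n) * c n)`.
Second part: with probability tending to one it is at most `10 ^ 8 * (c n) ^ 2 * exp (c n)`. -/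
theorem result :
    (∃ β γ : ℝ → ℝ, (∀ c, 1 ≤ c → 0 < β c ∧ 0 < γ c) ∧
      Tendsto β atTop (𝓝 1) ∧ Tendsto γ atTop (𝓝 1) ∧
      ∀ (c : ℕ → ℝ) (p : ℕ → unitInterval),
        (∀ᶠ n : ℕ in atTop, 1 ≤ c n ∧ c n ≤ Real.log n ∧ (p n : ℝ) = c n / n) →
        Tendsto (fun n : ℕ => SimpleGraph.binomialRandom (Fin n) (p n)
          {G | Real.exp (β (c n) * c n) ≤ (orderDim (graphOrder n G) : ℝ) ∧
            (orderDim (graphOrder n G) : ℝ) ≤ Real.exp (γ (c n) * c n)}) atTop (𝓝 1)) ∧
    ∀ (c : ℕ → ℝ) (p : ℕ → unitInterval),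
      (∀ᶠ n : ℕ in atTop, 1 ≤ c n ∧ c n ≤ Real.log n ∧ (p n : ℝ) = c n / n) →
      Tendsto (fun n : ℕ => SimpleGraph.binomialRandom (Fin n) (p n)
        {G | (orderDim (graphOrder n G) : ℝ) ≤ 10 ^ 8 * c n ^ 2 * Real.exp (c n)})
        atTop (𝓝 1) := by
  obtain ⟨β, hβ0, hβ1, hβ⟩ := Pool.Agent.SparseOrd.main
  refine ⟨⟨β, fun c => 1 + 2 * (Real.log c / c) + Real.log (10 ^ 8) / c, ?_, hβ1, ?_, ?_⟩, ?_⟩
  · intro c hc
    refine ⟨hβ0 c hc, ?_⟩
    have h1 : 0 ≤ Real.log c := Real.log_nonneg hc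
    have h2 : 0 ≤ Real.log (10 ^ 8) := Real.log_nonneg (by norm_num)
    positivity
  · have h1 : Tendsto (fun c : ℝ => Real.log c / c) atTop (𝓝 0) := by
      have := Real.isLittleO_log_id_atTop.tendsto_div_nhds_zero
      simpa using this
    have h2 : Tendsto (fun c : ℝ => Real.log (10 ^ 8) / c) atTop (𝓝 0) :=
      (tendsto_const_nhds (x := Real.log (10 ^ 8))).div_atTop tendsto_id
    have h3 := ((tendsto_const_nhds (x := (1 : ℝ)) (f := (atTop : Filter ℝ))).add
      (h1.const_mul 2)).add h2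
    simpa using h3
  · intro c p hcp
    refine (hβ c p hcp).congr' ?_
    filter_upwards [hcp] with n hn
    have hc0 : 0 < c n := by linarith [hn.1]
    have h1 : Real.exp ((1 + 2 * (Real.log (c n) / c n) + Real.log (10 ^ 8) / c n) * c n) =
        10 ^ 8 * c n ^ 2 * Real.exp (c n) := by
      have h2 : (1 + 2 * (Real.log (c n) / c n) + Real.log (10 ^ 8) / c n) * c n =
          Real.log (10 ^ 8) + 2 * Real.log (c n) + c n := by
        field_simp
        ring
      rw [h2, Real.exp_add, Real.exp_add, Real.exp_log (by norm_num), two_mul, Real.exp_add,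
        Real.exp_log hc0]
      ring
    rw [h1]
  · intro c p hcp
    refine tendsto_of_tendsto_of_tendsto_of_le_of_le (hβ c p hcp) tendsto_const_nhds
      (fun n => MeasureTheory.measure_mono fun G hG => ?_) (fun n => MeasureTheory.prob_le_one)
    exact hG.2

end Pool.Agent.Results.MP_ef8d06_pr.TwoSided
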